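import Pool.Agent.Lib.TPath.Short

/-!
# Two tight paths: every uniformity `r` and every `n < 3 r`

For every uniformity `r ≥ 3`, every `n < 3 r` and every 2-colouring of the complete `r`-uniform
hypergraph on `n` vertices, the vertex set is the disjoint union of the vertex sets of a red tight
path and of a blue tight path.
-/

namespace Pool.Agent.Results.MP_952639_co.ShortRegime

open Finset

/-- `v` lists the vertices of a tight path all of whose edges have colour `κ`: the entries of `v`
are distinct, and every set of `r` consecutive entries has colour `κ`.  (No condition if `v` has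
fewer than `r` entries.) -/
def IsMonoTightPath {V : Type*} [DecidableEq V] (r : ℕ) (c : Finset V → Bool) (κ : Bool)
    (v : List V) : Prop :=
  v.Nodup ∧ ∀ i, i + r ≤ v.length → c ((v.drop i).take r).toFinset = κ

theorem result :
    ∀ r ≥ 3, ∀ n < 3 * r, ∀ c : Finset (Fin n) → Bool, ∃ R B : List (Fin n),
      IsMonoTightPath r c true R ∧ IsMonoTightPath r c false B ∧
      (∀ v, v ∈ R ∨ v ∈ B) ∧ (∀ v, ¬ (v ∈ R ∧ v ∈ B)) := by
  intro r hr n hn c
  obtain ⟨P, Q, hP, hQ, h1, h2⟩ := Pool.Agent.Lib.TPath.short_regime (V := Fin n) hr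
    (by simpa using hn) c
  exact ⟨P, Q, hP, hQ, h1, h2⟩

end Pool.Agent.Results.MP_952639_co.ShortRegime
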