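import Pool.Agent.Lib.TPath.Short

/-!
# The exact density theorem for tight paths

A family `F` of `r`-subsets of an `n`-set with `r |F| > L C(n, r - 1)` contains a tight path with
`L + 1` edges.  In particular every 2-colouring of the complete `r`-uniform hypergraph on `n`
vertices has a monochromatic tight path on at least `(n + r - 1) / 2` vertices.
-/

namespace Pool.Agent.Results.MP_952639_co.TightPathDensity

open Finset

/-- `v` lists the vertices of a tight path all of whose edges are in `F`: the entries of `v` are
distinct, and every set of `r` consecutive entries is in `F`. -/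
def IsTightPathIn {V : Type*} [DecidableEq V] (r : ℕ) (F : Finset (Finset V)) (v : List V) : Prop :=
  v.Nodup ∧ ∀ i, i + r ≤ v.length → ((v.drop i).take r).toFinset ∈ F

theorem result :
    ∀ r ≥ 2, ∀ (n L : ℕ) (F : Finset (Finset (Fin n))), (∀ A ∈ F, A.card = r) →
      L * n.choose (r - 1) < r * F.card →
      ∃ v : List (Fin n), v.length = r + L ∧ IsTightPathIn r F v := by
  intro r hr n L F hF h
  obtain ⟨P, h1, h2⟩ := Pool.Agent.Lib.TPath.exists_tp (V := Fin n) (r := r) (L := L) hr hF
    (by simpa using h)
  exact ⟨P, h1, h2⟩

end Pool.Agent.Results.MP_952639_co.TightPathDensity
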