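import Pool.Agent.Lib.TwoPaths.Main

/-!
# Two tight paths partitioning a 2-coloured complete `r`-uniform hypergraph

For every uniformity `r ≥ 2` and every sufficiently large `n`, the vertex set of every 2-coloured
complete `r`-uniform hypergraph on `n` vertices is the disjoint union of the vertex sets of a red
tight path and of a blue tight path.
-/

namespace Pool.Agent.Results.MP_952639_co.TwoTightPaths

open Finset

/-- `v` lists the vertices of a tight path all of whose edges have colour `κ`: the entries of `v`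
are distinct, and every set of `r` consecutive entries has colour `κ`.  (No condition if `v` has
fewer than `r` entries.) -/
def IsMonoTightPath {V : Type*} [DecidableEq V] (r : ℕ) (c : Finset V → Bool) (κ : Bool)
    (v : List V) : Prop :=
  v.Nodup ∧ ∀ i, i + r ≤ v.length → c ((v.drop i).take r).toFinset = κ

theorem result (r : ℕ) (hr : 2 ≤ r) :
    ∃ n₀ : ℕ, ∀ n ≥ n₀, ∀ c : Finset (Fin n) → Bool, ∃ R B : List (Fin n),
      IsMonoTightPath r c true R ∧ IsMonoTightPath r c false B ∧
      (∀ v, v ∈ R ∨ v ∈ B) ∧ (∀ v, ¬ (v ∈ R ∧ v ∈ B)) := by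
  obtain ⟨n₀, h⟩ := Pool.Agent.Lib.TwoPaths.two_tight_paths r hr
  refine ⟨n₀, fun n hn c => ?_⟩
  obtain ⟨P, Q, hP, hQ, hnd, hall⟩ := h (Fin n) (by simpa using hn) c
  refine ⟨P, Q, hP, hQ, fun v => List.mem_append.mp (hall v), fun v hv => ?_⟩
  exact (List.nodup_append'.mp hnd).2.2 hv.1 hv.2

end Pool.Agent.Results.MP_952639_co.TwoTightPaths
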